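import Pool.Agent.Helper65.KH.Goals

/-!
# Project KH (MP_20ee5e_ag), packet PS: grouping a sum over words
-/

set_option autoImplicit false

namespace Pool.Agent.Helper99.KH.PS

open Pool.Agent.Helper65.KH

theorem card_words {ι : Type} [Fintype ι] [DecidableEq ι] (I J : Finset ι) (D : ℕ) (hJ : J ⊆ I) :
    ((Finset.univ.filter (fun φ : ι → Fin (D + 1) => ∀ j, j ∉ I → φ j = 0)).filter
      (fun φ => (I.filter fun j => φ j = 0) = J)).card = D ^ (I.card - J.card) := by
  classical
  have h1 : ((Finset.univ.filter (fun φ : ι → Fin (D + 1) => ∀ j, j ∉ I → φ j = 0)).filter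
      (fun φ => (I.filter fun j => φ j = 0) = J)) =
      Fintype.piFinset (fun j : ι => if j ∈ I \ J then
        (Finset.univ : Finset (Fin (D + 1))).erase 0 else {0}) := by
    ext φ
    rw [Finset.mem_filter, Finset.mem_filter, Fintype.mem_piFinset]
    constructor
    · rintro ⟨⟨_, hφ⟩, hg⟩ j
      by_cases hj : j ∈ I \ J
      · rw [if_pos hj, Finset.mem_erase]
        refine ⟨fun h0 => ?_, Finset.mem_univ _⟩
        rw [Finset.mem_sdiff] at hj
        apply hj.2
        rw [← hg, Finset.mem_filter]
        exact ⟨hj.1, h0⟩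
      · rw [if_neg hj, Finset.mem_singleton]
        by_cases hI : j ∈ I
        · have hJ' : j ∈ J := by
            by_contra hc
            exact hj (Finset.mem_sdiff.2 ⟨hI, hc⟩)
          rw [← hg, Finset.mem_filter] at hJ'
          exact hJ'.2
        · exact hφ j hI
    · intro h
      refine ⟨⟨Finset.mem_univ _, fun j hj => ?_⟩, ?_⟩
      · have h2 := h j
        rw [if_neg (fun hc => hj (Finset.mem_sdiff.1 hc).1), Finset.mem_singleton] at h2
        exact h2
      · ext j
        rw [Finset.mem_filter]
        constructor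
        · rintro ⟨hI, h0⟩
          by_contra hc
          have h2 := h j
          rw [if_pos (Finset.mem_sdiff.2 ⟨hI, hc⟩), Finset.mem_erase] at h2
          exact h2.1 h0
        · intro hj
          refine ⟨hJ hj, ?_⟩
          have h2 := h j
          rw [if_neg (fun hc => (Finset.mem_sdiff.1 hc).2 hj), Finset.mem_singleton] at h2
          exact h2
  rw [h1, Fintype.card_piFinset]
  have h2 : ∀ j : ι, (if j ∈ I \ J then (Finset.univ : Finset (Fin (D + 1))).erase 0
      else {0}).card = if j ∈ I \ J then D else 1 := by
    intro j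
    by_cases hj : j ∈ I \ J
    · rw [if_pos hj, if_pos hj, Finset.card_erase_of_mem (Finset.mem_univ _), Finset.card_univ,
        Fintype.card_fin, Nat.add_sub_cancel]
    · rw [if_neg hj, if_neg hj, Finset.card_singleton]
  rw [Finset.prod_congr rfl fun j _ => h2 j, Finset.prod_ite, Finset.prod_const_one, mul_one,
    Finset.prod_const]
  congr 1
  rw [← Finset.card_sdiff_of_subset hJ]
  congr 1
  ext j
  simp

/-- **PS** -/
theorem t : S_PS := by
  intro ι _ _ I D F
  classical
  rw [← Finset.sum_filter, ← Finset.sum_fiberwise_of_maps_to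
    (g := fun φ : ι → Fin (D + 1) => I.filter fun j => φ j = 0) (t := I.powerset)]
  · refine Finset.sum_congr rfl fun J hJ => ?_
    rw [Finset.mem_powerset] at hJ
    rw [← card_words I J D hJ, ← smul_eq_mul, ← Finset.sum_const]
    refine Finset.sum_congr rfl fun φ hφ => ?_
    rw [(Finset.mem_filter.1 hφ).2]
  · intro φ _
    rw [Finset.mem_powerset]
    exact Finset.filter_subset _ _

end Pool.Agent.Helper99.KH.PS
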